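import Pool.Agent.Helper68.C5.Sel5
import Pool.Agent.Helper68.C5.LQ5
import Pool.Graph.R_seed8.Y696.CTK.LK

/-!
# The `L`-function of `y² + D y = x³` over `ℚ(ω)` for `D = 3 ω^κ ∏ π_j^(e_j)`
-/

set_option autoImplicit false
set_option linter.unusedVariables false
set_option linter.unusedSectionVars false

namespace Pool.Agent.Helper68.C5K.LK5K

open NumberField IsDedekindDomain WeierstrassCurve
open Pool.Agent.W189.NF (aV eV redMap Ov mem_max_iff finite_res card_res redMap_eq_zero aLoc eLoc)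
open Pool.Agent.H921R2.TatePole (nm two_le_nm)
open Pool.Agent.Y715.T.Gi (lam)
open Pool.Agent.Y715.T.Rs (eq0 eq0_coe card_quo)
open Pool.Agent.Y703.CT
open Pool.Agent.Y696.CT
open Pool.Agent.Y692.QS hiding chi
open Pool.Agent.Y715.T.Rec (cs nn)
open Pool.Agent.Y715.T.RecG (Pq cs_spec cs_of cs_mul cs_pow)
open Pool.Agent.Y696.CTK (ED bad_of pK mem_pK pK_span eK span_ns pq_ns tht tht_sq tht_prime three_span
  good_val nm_nr conj_nat_cpow')
open Pool.Agent.Helper68.C5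
open Pool.Agent.Helper68.C5.Sup5 (cs_pD)
open Pool.Agent.Helper68.C5.Chr5 (ts ts_mul ts_u ts_prim)
open Pool.Agent.Helper68.C5.LQ5 (cp_of)
open Pool.Agent.Helper68.C2.LK2 (w_unit not_dvd_w)
open Pool.Agent.Y696 (HBd LSeries_hasProd')
open scoped Classical

variable {K : Type} [Field K] [NumberField K] (j : Ei ≃+* 𝓞 K)
variable {J : Type} [Fintype J] {π : J → Ei} {e : J → ZMod 3} {κ : ZMod 3}

/-! ### the coefficients -/

/-- the coefficients -/
noncomputable def g5 (π : J → Ei) (e : J → ZMod 3) (κ : ZMod 3) (s : ℂ) (α : Ei) : ℂ :=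
  if (3 : ℤ) ∣ nr α then 0 else gg π e s α * toC w ^ (-(ts κ α)).val

lemma g5_mul (hpq : ∀ j, Pq (π j)) (e : J → ZMod 3) (s : ℂ) (α β : Ei) :
    g5 π e κ s (α * β) = g5 π e κ s α * g5 π e κ s β := by
  have h3 : Prime (3 : ℤ) := Int.prime_three
  have h4 : (3 : ℤ) ∣ nr (α * β) ↔ (3 : ℤ) ∣ nr α ∨ (3 : ℤ) ∣ nr β := by
    rw [nr_mul]
    exact h3.dvd_mul
  unfold g5
  by_cases h1 : (3 : ℤ) ∣ nr α
  · rw [if_pos (h4.2 (Or.inl h1)), if_pos h1, zero_mul]
  · by_cases h2 : (3 : ℤ) ∣ nr β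
    · rw [if_pos (h4.2 (Or.inr h2)), if_pos h2, mul_zero]
    · rw [if_neg (fun h => (h4.1 h).elim h1 h2), if_neg h1, if_neg h2, gg_mul hpq,
        ts_mul (cp_of h1) (cp_of h2), neg_add, toC_w_add]
      ring

lemma g5_one (hpq : ∀ j, Pq (π j)) (e : J → ZMod 3) (s : ℂ) : g5 π e κ s 1 = 1 := by
  unfold g5
  rw [if_neg (by rw [nr_one]; norm_num), gg_one hpq, ts_u (one_pow 6), neg_zero,
    ZMod.val_zero, pow_zero, mul_one]

lemma g5_prim {α : Ei} (h : (3 : Ei) ∣ α - 1) (s : ℂ) :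
    g5 π e κ s α = toC α * (chD π e α * toC w ^ (-(ts κ α)).val) *
        ((nr α : ℤ) : ℂ) ^ (-s) := by
  unfold g5
  rw [if_neg (ep_ndvd h)]
  unfold gg
  ring

lemma not_dvd_t {α : Ei} (hα : Pq α) : ¬ α ∣ 3 * w ^ κ.val := by
  intro h
  rcases hα.prime.dvd_or_dvd h with h1 | h1
  · exact hα.norm h1
  · exact not_dvd_w hα.prime (hα.prime.dvd_of_dvd_pow h1)

lemma dvd_pD5 {α : Ei} (hα : Pq α) : α ∣ pD5 π e κ ↔ α ∣ pD π e := by
  unfold pD5
  constructor
  · intro h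
    exact (hα.prime.dvd_or_dvd h).resolve_left (not_dvd_t hα)
  · exact fun h => Dvd.dvd.mul_left h _

lemma cs_pD5 {α : Ei} (hα : Pq α) (h : ¬ α ∣ pD π e) :
    cs α (pD5 π e κ) = ts κ α + cs α (pD π e) := by
  unfold pD5
  rw [cs_mul hα.prime hα.norm (not_dvd_t hα) h, cs_pD hα]

/-! ### the places of bad reduction -/

/-- at the prime above three -/
theorem bad_three {P : HeightOneSpectrum Ei} (h : (3 : ℤ) ∣ nr (gn P.asIdeal)) (hdt : Dt π e) :
    aV (ED (j (pD5 π e κ) : K)) (pK j P) = 0 ∧ eV (ED (j (pD5 π e κ) : K)) (pK j P) = 0 := by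
  have hs := three_span h
  refine bad_of (t := j tht) (r := (j (w ^ κ.val * pD π e)) ^ 4) (m := 14) ?_ (pK_span j hs)
    (by norm_num) ?_ ?_
  · rw [Ne, map_eq_zero_iff j j.injective]
    exact tht_prime.ne_zero
  · intro h4
    have h5 := (pK j P).isPrime.mem_of_pow_mem 4 h4
    rw [mem_pK, hs, Ideal.mem_span_singleton] at h5
    have h6 := (IsUnit.dvd_mul_left (w_unit.pow κ.val)).1 h5
    exact Pool.Agent.Helper68.C5.Sel5.lam_not_prod hdt _ h6
  · have h7 : (-27 : 𝓞 K) = (j tht) ^ 6 := by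
      rw [← map_pow]
      have : tht ^ 6 = -27 := by decide
      rw [this, map_neg, map_ofNat]
    have h8 : j (pD5 π e κ) = -(j tht) ^ 2 * j (w ^ κ.val * pD π e) := by
      rw [← map_pow, ← map_neg, ← map_mul]
      congr 1
      show 3 * w ^ κ.val * pD π e = -tht ^ 2 * (w ^ κ.val * pD π e)
      have h9 : (3 : Ei) = -tht ^ 2 := by decide
      rw [h9]
      ring
    rw [h7, h8]
    ring

/-- at the primes dividing `D` -/
theorem bad_D {P : HeightOneSpectrum Ei} (hdt : Dt π e) {i : J}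
    (h : P.asIdeal = Ideal.span {π i}) :
    aV (ED (j (pD5 π e κ) : K)) (pK j P) = 0 ∧
      eV (ED (j (pD5 π e κ) : K)) (pK j P) = 0 := by
  have hi := hdt.pq i
  have hsp : pD5 π e κ = π i ^ (e i).val *
      (3 * w ^ κ.val * ∏ l ∈ Finset.univ.erase i, π l ^ (e l).val) := by
    unfold pD5 pD
    rw [← Finset.mul_prod_erase _ _ (Finset.mem_univ i)]
    ring
  have hm : ¬ 12 ∣ 4 * (e i).val := by
    have h1 := ZMod.val_lt (e i)
    have h2 : (e i).val ≠ 0 := by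
      rw [Ne, ZMod.val_eq_zero]
      exact hdt.e0 i
    omega
  refine bad_of (t := j (π i)) (r := -27 * (j (3 * w ^ κ.val * ∏ l ∈ Finset.univ.erase i,
    π l ^ (e l).val)) ^ 4) (m := 4 * (e i).val) ?_ (pK_span j h) hm ?_ ?_
  · rw [Ne, map_eq_zero_iff j j.injective]
    exact hi.prime.ne_zero
  · intro h4
    rcases (pK j P).isPrime.mem_or_mem h4 with h5 | h5
    · have h6 : (-27 : 𝓞 K) = j (-(3 ^ 3)) := by
        rw [map_neg, map_pow, map_ofNat]
        norm_num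
      rw [h6, mem_pK, h, Ideal.mem_span_singleton, dvd_neg] at h5
      have h7 := hi.prime.dvd_of_dvd_pow h5
      apply hi.prime.not_isUnit
      apply isUnit_of_dvd_one
      have h8 := dvd_sub (dvd_refl (π i)) (dvd_trans h7 hi.three)
      rwa [sub_sub_cancel] at h8
    · have h6 := (pK j P).isPrime.mem_of_pow_mem 4 h5
      rw [mem_pK, h, Ideal.mem_span_singleton] at h6
      rcases hi.prime.dvd_or_dvd h6 with h7 | h7
      · exact not_dvd_t hi h7
      · rw [Prime.dvd_finsetProd_iff hi.prime] at h7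
        obtain ⟨l, hl, h7⟩ := h7
        exact hdt.nd l i (Finset.ne_of_mem_erase hl) (hi.prime.dvd_of_dvd_pow h7)
  · rw [hsp, map_mul, map_pow]
    ring

/-! ### the comparison of the local factors -/

/-- the factor of the Hecke `L`-function and its conjugate -/
theorem factorK (hrec : S_REC) (hdt : Dt π e) (s : ℂ) (P : HeightOneSpectrum Ei) :
    HBd (aV (ED (j (pD5 π e κ) : K)) (pK j P))
      (eV (ED (j (pD5 π e κ) : K)) (pK j P)) (nm (pK j P)) ∧
    (1 - (aV (ED (j (pD5 π e κ) : K)) (pK j P) : ℂ) * (nm (pK j P) : ℂ) ^ (-s) +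
      (eV (ED (j (pD5 π e κ) : K)) (pK j P) : ℂ) * ((nm (pK j P) : ℂ) ^ (-s)) ^ 2)⁻¹ =
    (1 - fI (g5 π (fun i => -e i) κ s) P.asIdeal)⁻¹ *
      (starRingEnd ℂ) ((1 - fI (g5 π (fun i => -e i) κ ((starRingEnd ℂ) s)) P.asIdeal)⁻¹) := by
  have hbad : aV (ED (j (pD5 π e κ) : K)) (pK j P) = 0 ∧
      eV (ED (j (pD5 π e κ) : K)) (pK j P) = 0 →
      (∀ z, fI (g5 π (fun i => -e i) κ z) P.asIdeal = 0) →
      HBd (aV (ED (j (pD5 π e κ) : K)) (pK j P))
      (eV (ED (j (pD5 π e κ) : K)) (pK j P)) (nm (pK j P)) ∧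
    (1 - (aV (ED (j (pD5 π e κ) : K)) (pK j P) : ℂ) * (nm (pK j P) : ℂ) ^ (-s) +
      (eV (ED (j (pD5 π e κ) : K)) (pK j P) : ℂ) * ((nm (pK j P) : ℂ) ^ (-s)) ^ 2)⁻¹ =
    (1 - fI (g5 π (fun i => -e i) κ s) P.asIdeal)⁻¹ *
      (starRingEnd ℂ) ((1 - fI (g5 π (fun i => -e i) κ ((starRingEnd ℂ) s)) P.asIdeal)⁻¹) := by
    rintro ⟨h1, h2⟩ h3
    refine ⟨Or.inl ⟨h1, h2⟩, ?_⟩
    rw [h1, h2, h3, h3]
    simp
  by_cases h3 : (3 : ℤ) ∣ nr (gn P.asIdeal)
  · refine hbad (bad_three j h3 hdt) fun z => ?_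
    unfold fI
    rw [if_pos h3]
  · set α := ns (gn P.asIdeal) with hα
    have hs := span_ns h3
    rw [← hα] at hs
    have hpq := pq_ns h3
    rw [← hα] at hpq
    have hfI : ∀ g : Ei → ℂ, fI g P.asIdeal = g α := fun g => by
      rw [hs, fI_prim g hpq.three]
    by_cases hD : α ∣ pD π e
    · obtain ⟨i, hi⟩ := dvd_pD hpq.prime hdt hD
      refine hbad (bad_D j hdt (i := i) ?_) fun z => ?_
      · rw [hs]
        exact Ideal.span_singleton_eq_span_singleton.2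
          ((hdt.pq i).prime.associated_of_dvd hpq.prime hi).symm
      · rw [hfI, g5_prim hpq.three]
        rw [chD_bad hpq.prime hdt (Or.inl rfl) hD, zero_mul, mul_zero, zero_mul]
    · have hD2 : ¬ α ∣ pD5 π e κ := by rwa [dvd_pD5 hpq]
      obtain ⟨v1, v2⟩ := good_val j hpq (pK_span j hs) hD2
      have hnm := nm_nr j (pK_span j hs)
      set x := toC (w ^ (-cs α (pD5 π e κ)).val * α) with hx
      have hxx : x * (starRingEnd ℂ) x = (nm (pK j P) : ℂ) := by
        rw [Complex.mul_conj, hx, toC_normSq, nr_mul]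
        have h5 : nr (w ^ (-cs α (pD5 π e κ)).val) = 1 := by
          generalize -cs α (pD5 π e κ) = c
          revert c
          decide
        rw [h5, one_mul, ← hnm]
        push_cast
        rfl
      have hg : ∀ z, g5 π (fun i => -e i) κ z α = x * (nm (pK j P) : ℂ) ^ (-z) := by
        intro z
        rw [g5_prim hpq.three]
        have h6 := chD_prime hrec hdt (Or.inl rfl) hpq hD
        have h7 : (-cs α (pD5 π e κ)) = -cs α (pD π e) + -ts κ α := by
          rw [cs_pD5 hpq hD]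
          ring
        rw [h6, ← hnm, hx, map_mul, map_pow, h7, toC_w_add]
        push_cast
        ring
      refine ⟨Or.inr ⟨x, v1, ?_, hxx⟩, ?_⟩
      · rw [v2, hxx]
      · rw [hfI, hfI, hg, hg, v1, v2, map_inv₀, map_sub, map_one, map_mul, conj_nat_cpow',
          map_neg, Complex.conj_conj, ← mul_inv]
        congr 1
        linear_combination (-(((nm (pK j P) : ℕ) : ℂ) ^ (-s)) ^ 2) * hxx

/-- **The `L`-function.** -/
theorem LK (hrec : S_REC) (hdt : Dt π e) (F : ℂ → ℂ) (hF : IsHL5 π (fun i => -e i) κ F) (s : ℂ)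
    (hs : 3 / 2 < s.re) :
      LSeriesSummable ((fun n : ℤ => (n : ℂ)) ∘ (ED (j (pD5 π e κ) : K)).LFunction) s ∧
        F s * (starRingEnd ℂ) (F ((starRingEnd ℂ) s)) = (ED (j (pD5 π e κ) : K)).LSeries s := by
  have hsc : 3 / 2 < ((starRingEnd ℂ) s).re := by rwa [Complex.conj_re]
  have hsum : ∀ z : ℂ, 3 / 2 < z.re →
      HasSum (fun α : {α : Ei // (3 : Ei) ∣ α - 1} => g5 π (fun i => -e i) κ z α) (F z) := by
    intro z hz
    refine (hF.2 z hz).congr_fun fun α => ?_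
    exact g5_prim (π := π) (e := fun i => -e i) (κ := κ) α.2 z
  have h3 := hasProd_Ei (g5_one hdt.pq _ s) (g5_mul hdt.pq _ s) (hsum s hs)
  have h4 := (hasProd_Ei (g5_one hdt.pq _ ((starRingEnd ℂ) s)) (g5_mul hdt.pq _ _)
    (hsum _ hsc)).map (starRingEnd ℂ) Complex.continuous_conj
  have h5 := h3.mul h4
  have hE : ∀ v : HeightOneSpectrum (𝓞 K), HBd (aV (ED (j (pD5 π e κ) : K)) v)
      (eV (ED (j (pD5 π e κ) : K)) v) (nm v) := by
    intro v
    obtain ⟨P, rfl⟩ := (eK j).surjective v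
    exact (factorK j hrec hdt s P).1
  obtain ⟨h6, h7⟩ := LSeries_hasProd' (ED (j (pD5 π e κ) : K)) hE hs
  refine ⟨h6, ?_⟩
  have h8 := (eK j).hasProd_iff.2 h7
  refine h5.unique (h8.congr_fun fun P => ?_)
  exact ((factorK j hrec hdt s P).2).symm

end Pool.Agent.Helper68.C5K.LK5K
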